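import Pool.Agent.Q257.MD.PPrime

/-!
# Maximal density of sets avoiding polynomial-value differences

For every nonzero `h ∈ ℤ[x]` and for `X = h(ℤ)` as well as for `X = h(primes)`, the supremum of the
upper densities of the sets `A` of positive integers with `(A - A) ∩ X ⊆ {0}` is the supremum over
`m ≥ 1` of `d_X(m) / m`, where `d_X(m)` is the largest size of a subset of `ℤ / m` no two elements
of which differ by the class of a nonzero element of `X`.

Method: an extreme translation invariant mean attached to `A` (so that the action is ergodic), the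
spectral measure of `1_A` (Herglotz), the projections to periodic functions along `K!`, and the
equidistribution of `θ h(n)` for irrational `θ` along integers, respectively primes, of every
(reduced) residue class.
-/

set_option autoImplicit false

namespace Pool.Agent.Results.MP_e70ed2_nt.MaxDensity

open Filter Topology Polynomial

open Classical in
/-- `|A ∩ {1, …, N}|`. -/
noncomputable def count (A : Set ℕ) (N : ℕ) : ℕ := ((Finset.Icc 1 N).filter fun n => n ∈ A).card

/-- The upper density of a set of natural numbers. -/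
noncomputable def upperDensity (A : Set ℕ) : ℝ := limsup (fun N : ℕ => (count A N : ℝ) / N) atTop

/-- `A` consists of positive integers and `(A - A) ∩ X ⊆ {0}`. -/
def Avoids (X : Set ℤ) (A : Set ℕ) : Prop :=
  0 ∉ A ∧ ∀ a ∈ A, ∀ b ∈ A, (a : ℤ) - b ∈ X → (a : ℤ) - b = 0

/-- The upper densities of the sets avoiding `X`. -/
def densities (X : Set ℤ) : Set ℝ := {δ | ∃ A : Set ℕ, Avoids X A ∧ δ = upperDensity A}

/-- `μ(X)`. -/
noncomputable def mu (X : Set ℤ) : ℝ := sSup (densities X)

/-- `X_m`, the residue classes modulo `m` that contain a nonzero element of `X`. -/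
def classes (X : Set ℤ) (m : ℕ) : Set (ZMod m) := {c | ∃ x ∈ X, x ≠ 0 ∧ (x : ZMod m) = c}

/-- `d_X(m)`, the largest size of a set `S ⊆ ℤ / m` with `(S - S) ∩ X_m = ∅`. -/
noncomputable def d (X : Set ℤ) (m : ℕ) : ℕ :=
  sSup {k | ∃ S : Finset (ZMod m), S.card = k ∧ ∀ a ∈ S, ∀ b ∈ S, a - b ∉ classes X m}

/-- The numbers `d_X(m) / m`, `m ≥ 1`. -/
def ratios (X : Set ℤ) : Set ℝ := {r | ∃ m : ℕ, 1 ≤ m ∧ r = (d X m : ℝ) / m}

/-- The values of a polynomial at the integers. -/
def values (h : ℤ[X]) : Set ℤ := {x | ∃ n : ℤ, x = h.eval n}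

/-- The values of a polynomial at the primes. -/
def primeValues (h : ℤ[X]) : Set ℤ := {x | ∃ l : ℕ, l.Prime ∧ x = h.eval (l : ℤ)}

theorem count_le (A : Set ℕ) (N : ℕ) : count A N ≤ N := by
  classical
  unfold count
  refine (Finset.card_filter_le _ _).trans ?_
  simp

theorem ratio_bdd (A : Set ℕ) (N : ℕ) : 0 ≤ (count A N : ℝ) / N ∧ (count A N : ℝ) / N ≤ 1 := by
  refine ⟨by positivity, div_le_one_of_le₀ ?_ (Nat.cast_nonneg N)⟩
  exact_mod_cast count_le A N

theorem bdd_above (A : Set ℕ) :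
    IsBoundedUnder (· ≤ ·) atTop (fun N : ℕ => (count A N : ℝ) / N) :=
  isBoundedUnder_of ⟨1, fun N => (ratio_bdd A N).2⟩

theorem bdd_below (A : Set ℕ) :
    IsBoundedUnder (· ≥ ·) atTop (fun N : ℕ => (count A N : ℝ) / N) :=
  isBoundedUnder_of ⟨0, fun N => (ratio_bdd A N).1⟩

theorem upperDensity_le_one (A : Set ℕ) : upperDensity A ≤ 1 :=
  limsup_le_of_le (bdd_below A).isCoboundedUnder_le (Eventually.of_forall fun N => (ratio_bdd A N).2)

theorem d_bdd (X : Set ℤ) (m : ℕ) (hm : 1 ≤ m) :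
    BddAbove {k | ∃ S : Finset (ZMod m), S.card = k ∧ ∀ a ∈ S, ∀ b ∈ S, a - b ∉ classes X m} := by
  have : NeZero m := ⟨by omega⟩
  refine ⟨m, ?_⟩
  rintro k ⟨S, rfl, _⟩
  have := Finset.card_le_univ S
  rwa [ZMod.card] at this

theorem card_le_d (X : Set ℤ) (m : ℕ) (hm : 1 ≤ m) (S : Finset (ZMod m))
    (hS : ∀ a ∈ S, ∀ b ∈ S, a - b ∉ classes X m) : S.card ≤ d X m :=
  le_csSup (d_bdd X m hm) ⟨S, rfl, hS⟩

theorem exists_card_eq_d (X : Set ℤ) (m : ℕ) (hm : 1 ≤ m) :
    ∃ S : Finset (ZMod m), S.card = d X m ∧ ∀ a ∈ S, ∀ b ∈ S, a - b ∉ classes X m := by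
  have hne : ({k | ∃ S : Finset (ZMod m), S.card = k ∧ ∀ a ∈ S, ∀ b ∈ S, a - b ∉ classes X m} :
      Set ℕ).Nonempty := ⟨0, ∅, rfl, by simp⟩
  exact Nat.sSup_mem hne (d_bdd X m hm)

/-- unions of residue classes -/
theorem ratio_le (X : Set ℤ) (m : ℕ) (hm : 1 ≤ m) :
    ∃ δ ∈ densities X, (d X m : ℝ) / m ≤ δ := by
  classical
  have hne : NeZero m := ⟨by omega⟩
  obtain ⟨S, hS, hav⟩ := exists_card_eq_d X m hm
  obtain ⟨A, hA⟩ : ∃ A : Set ℕ, ∀ n, n ∈ A ↔ 0 < n ∧ (n : ZMod m) ∈ S :=
    ⟨{n | 0 < n ∧ (n : ZMod m) ∈ S}, fun n => Iff.rfl⟩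
  refine ⟨upperDensity A, ⟨A, ⟨fun h => absurd ((hA 0).1 h).1 (lt_irrefl _), ?_⟩, rfl⟩, ?_⟩
  · intro a ha b hb hX
    by_contra hne0
    refine hav _ ((hA a).1 ha).2 _ ((hA b).1 hb).2 ⟨(a : ℤ) - b, hX, hne0, ?_⟩
    push_cast
    rfl
  · -- the counting function along multiples of m
    set P : ℕ → Prop := fun n => (n : ZMod m) ∈ S with hP
    have hper : Function.Periodic P m := by
      intro n
      simp only [hP]
      push_cast
      rw [ZMod.natCast_self, add_zero]
    have hcnt : m.count P = S.card := by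
      rw [Nat.count_eq_card_filter_range]
      refine Finset.card_bij (fun n _ => (n : ZMod m)) ?_ ?_ ?_
      · intro n hn
        exact (Finset.mem_filter.1 hn).2
      · intro a ha b hb hab
        have h1 := Finset.mem_range.1 (Finset.mem_filter.1 ha).1
        have h2 := Finset.mem_range.1 (Finset.mem_filter.1 hb).1
        have h3 := congrArg ZMod.val hab
        rwa [ZMod.val_natCast, ZMod.val_natCast, Nat.mod_eq_of_lt h1, Nat.mod_eq_of_lt h2] at h3
      · intro s hs
        refine ⟨s.val, Finset.mem_filter.2 ⟨Finset.mem_range.2 (ZMod.val_lt s), ?_⟩, ?_⟩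
        · simp only [hP]
          rw [ZMod.natCast_val, ZMod.cast_id]
          exact hs
        · rw [ZMod.natCast_val, ZMod.cast_id]
    have hcount : ∀ k : ℕ, count A (m * k) = k * S.card := by
      intro k
      induction k with
      | zero => simp [count]
      | succ k ih =>
        have h1 : count A (m * (k + 1)) = count A (m * k) +
            ((Finset.Ico (m * k + 1) (m * k + 1 + m)).filter P).card := by
          unfold count
          have e : (Finset.Icc 1 (m * (k + 1))).filter (fun n => n ∈ A) =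
              (Finset.Icc 1 (m * k)).filter (fun n => n ∈ A) ∪
                (Finset.Ico (m * k + 1) (m * k + 1 + m)).filter P := by
            ext n
            simp only [Finset.mem_filter, Finset.mem_union, Finset.mem_Icc, Finset.mem_Ico, hA, hP]
            have : m * (k + 1) = m * k + m := by ring
            rw [this]
            constructor
            · rintro ⟨⟨h1, h2⟩, h3, h4⟩
              rcases Nat.lt_or_ge (m * k) n with h | h
              · right; exact ⟨⟨by omega, by omega⟩, h4⟩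
              · left; exact ⟨⟨h1, h⟩, h3, h4⟩
            · rintro (⟨⟨h1, h2⟩, h3, h4⟩ | ⟨⟨h1, h2⟩, h4⟩)
              · exact ⟨⟨h1, by omega⟩, h3, h4⟩
              · exact ⟨⟨by omega, by omega⟩, by omega, h4⟩
          rw [e, Finset.card_union_of_disjoint]
          rw [Finset.disjoint_left]
          intro n hn hn'
          have h1 := Finset.mem_Icc.1 (Finset.mem_filter.1 hn).1
          have h2 := Finset.mem_Ico.1 (Finset.mem_filter.1 hn').1
          omega
        rw [h1, ih, Nat.filter_Ico_card_eq_of_periodic _ _ _ hper, hcnt]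
        ring
    refine le_limsup_of_frequently_le ?_ (bdd_above A)
    rw [frequently_atTop]
    intro N
    refine ⟨m * (N + 1), ?_, ?_⟩
    · calc N ≤ N + 1 := Nat.le_succ N
        _ = 1 * (N + 1) := (one_mul _).symm
        _ ≤ m * (N + 1) := Nat.mul_le_mul_right _ hm
    · rw [hcount, hS]
      have hmr : (0 : ℝ) < m := by exact_mod_cast hm
      push_cast
      apply le_of_eq
      field_simp

theorem ratio_le_one (X : Set ℤ) (m : ℕ) (hm : 1 ≤ m) : (d X m : ℝ) / m ≤ 1 := by
  obtain ⟨δ, ⟨A, _, rfl⟩, h⟩ := ratio_le X m hm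
  exact h.trans (upperDensity_le_one A)

/-- the upper bound -/
theorem density_le (T : Set ℤ) (h : ℤ[X]) (hadm : Q257.MD.Adm T (fun t => h.eval t)) (X : Set ℤ)
    (hX : X = {x | ∃ t ∈ T, x = h.eval t}) (A : Set ℕ) (hA : Avoids X A) (u : ℝ)
    (hu : ∀ r ∈ ratios X, r ≤ u) : upperDensity A ≤ u := by
  refine le_of_forall_lt fun c hc => ?_
  obtain ⟨c', hcc', hc'⟩ := exists_between hc
  have hfr : ∃ᶠ N : ℕ in atTop, c' ≤ (Q257.MD.cnt A N : ℝ) / N := by
    have h1 := frequently_lt_of_lt_limsup (bdd_below A).isCoboundedUnder_le hc'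
    refine h1.mono fun N hN => ?_
    exact hN.le
  obtain ⟨m, hm, S, hScard, hSav⟩ := Q257.MD.periodic_set T (fun t => h.eval t) hadm
    (fun M b t hd => Q257.MD.eval_dvd h M b t hd) A
    (by
      intro a ha b hb t ht hab
      have h2 := hA.2 a ha b hb (by rw [hX]; exact ⟨t, ht, hab⟩)
      rw [← hab]; exact h2)
    c' ((c' - c) / 2) (by linarith) hfr
  have h3 : S.card ≤ d X m := by
    refine card_le_d X m hm S ?_
    rintro a ha b hb ⟨x, hx, hx0, hxc⟩
    rw [hX] at hx
    obtain ⟨t, ht, rfl⟩ := hx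
    exact hSav a ha b hb t ht hx0 hxc.symm
  have hmr : (0 : ℝ) < m := by exact_mod_cast hm
  have h4 : c' - (c' - c) / 2 ≤ (d X m : ℝ) / m := by
    rw [le_div_iff₀ hmr]
    refine hScard.trans ?_
    exact_mod_cast h3
  have h5 := hu _ ⟨m, hm, rfl⟩
  linarith

theorem main (T : Set ℤ) (h : ℤ[X]) (hadm : Q257.MD.Adm T (fun t => h.eval t)) (X : Set ℤ)
    (hX : X = {x | ∃ t ∈ T, x = h.eval t}) :
    IsLUB (densities X) (mu X) ∧ IsLUB (ratios X) (mu X) := by
  have hne : (densities X).Nonempty := ⟨_, ∅, ⟨by simp, by simp⟩, rfl⟩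
  have hbdd : BddAbove (densities X) := by
    refine ⟨1, ?_⟩
    rintro δ ⟨A, _, rfl⟩
    exact upperDensity_le_one A
  have hlub := isLUB_csSup hne hbdd
  refine ⟨hlub, ?_, ?_⟩
  · rintro r ⟨m, hm, rfl⟩
    obtain ⟨δ, hδ, hle⟩ := ratio_le X m hm
    exact hle.trans (hlub.1 hδ)
  · intro u hu
    refine hlub.2 ?_
    rintro δ ⟨A, hA, rfl⟩
    exact density_le T h hadm X hX A hA u (fun r hr => hu hr)

/-- For every nonzero integer polynomial `h` and for both `X = h(ℤ)` and `X = h(primes)`: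
`μ(X) = sup_m d_X(m) / m`. (The two `IsLUB` statements record that `μ(X)` is a genuine supremum of
upper densities and the genuine supremum of the ratios.) -/
theorem result (h : ℤ[X]) (_h0 : h ≠ 0) :
    (mu (values h) = sSup (ratios (values h)) ∧
      IsLUB (densities (values h)) (mu (values h)) ∧ IsLUB (ratios (values h)) (mu (values h))) ∧
    (mu (primeValues h) = sSup (ratios (primeValues h)) ∧
      IsLUB (densities (primeValues h)) (mu (primeValues h)) ∧
      IsLUB (ratios (primeValues h)) (mu (primeValues h))) := by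
  have key : ∀ (T : Set ℤ) (_ : Q257.MD.Adm T (fun t => h.eval t)) (X : Set ℤ)
      (_ : X = {x | ∃ t ∈ T, x = h.eval t}),
      mu X = sSup (ratios X) ∧ IsLUB (densities X) (mu X) ∧ IsLUB (ratios X) (mu X) := by
    intro T hT X hX
    obtain ⟨h1, h2⟩ := main T h hT X hX
    refine ⟨?_, h1, h2⟩
    have hne : (ratios X).Nonempty := ⟨_, 1, le_rfl, rfl⟩
    exact (h2.csSup_eq hne).symm
  refine ⟨key Set.univ (Q257.MD.adm_univ h) _ ?_, key Q257.MD.PrimeZ (Q257.MD.adm_prime h) _ ?_⟩
  · ext x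
    simp only [values, Set.mem_ofPred_eq, Set.mem_univ, true_and]
  · ext x
    simp only [primeValues, Q257.MD.PrimeZ, Set.mem_ofPred_eq]
    constructor
    · rintro ⟨l, hl, rfl⟩; exact ⟨l, ⟨l, hl, rfl⟩, rfl⟩
    · rintro ⟨t, ⟨l, hl, rfl⟩, rfl⟩; exact ⟨l, hl, rfl⟩

end Pool.Agent.Results.MP_e70ed2_nt.MaxDensity
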